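import Pool.Agent.TH63.KQ.Residual

/-!
# The embedding in a wreath product and the solution of the system
-/

set_option autoImplicit false

open Monoid
open scoped IsMulCommutative

namespace Pool.Agent.TH63.KQ

section embed

variable {G K : Type} [Group G] [Group K] (κ : G →* K)

open Classical in
/-- a section of `κ` on its range -/
noncomputable def sec (x : K) : G := if h : ∃ g, κ g = x then Classical.choose h else 1

lemma sec_spec (x : K) (h : x ∈ κ.range) : κ (sec κ x) = x := by
  have h' : ∃ g, κ g = x := h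
  unfold sec
  rw [dif_pos h']
  exact Classical.choose_spec h'

lemma shift_mem (a : G) (x : K) (h : x ∈ κ.range) : (κ a)⁻¹ * x ∈ κ.range :=
  κ.range.mul_mem (κ.range.inv_mem ⟨a, rfl⟩) h

lemma factor_mem (a : G) (x : K) (h : x ∈ κ.range) :
    (sec κ x)⁻¹ * a * sec κ ((κ a)⁻¹ * x) ∈ κ.ker := by
  rw [MonoidHom.mem_ker, map_mul, map_mul, map_inv, sec_spec κ x h,
    sec_spec κ _ (shift_mem κ a x h)]
  group

open Classical in
/-- the embedding of `G` in the wreath product of the kernel of `κ` with `K` -/
noncomputable def kk : G →* RegularWreathProduct κ.ker K :=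
  { toFun := fun a => ⟨fun x => if h : x ∈ κ.range then
      ⟨(sec κ x)⁻¹ * a * sec κ ((κ a)⁻¹ * x), factor_mem κ a x h⟩ else 1, κ a⟩
    map_one' := by
      refine RegularWreathProduct.ext ?_ (map_one κ)
      funext x
      by_cases h : x ∈ κ.range
      · simp only [dif_pos h]
        apply Subtype.ext
        simp
      · simp only [dif_neg h]
        rfl
    map_mul' := by
      intro a b
      refine RegularWreathProduct.ext ?_ (map_mul κ a b)
      funext x
      rw [RegularWreathProduct.mul_left]
      simp only [Pi.mul_apply]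
      by_cases h : x ∈ κ.range
      · rw [dif_pos h, dif_pos h, dif_pos (shift_mem κ a x h)]
        apply Subtype.ext
        simp only [Subgroup.coe_mul, map_mul, mul_inv_rev]
        group
      · have h' : ¬ ((κ a)⁻¹ * x ∈ κ.range) := by
          intro h1
          apply h
          have h2 := κ.range.mul_mem (⟨a, rfl⟩ : κ a ∈ κ.range) h1
          rwa [mul_inv_cancel_left] at h2
        rw [dif_neg h, dif_neg h, dif_neg h', mul_one] }

lemma kk_right (a : G) : (kk κ a).right = κ a := rfl

lemma kk_injective (a : G) (h : kk κ a = 1) : a = 1 := by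
  have h1 : κ a = 1 := congrArg RegularWreathProduct.right h
  have h2 := congrFun (congrArg RegularWreathProduct.left h) 1
  have h3 : (1 : K) ∈ κ.range := κ.range.one_mem
  have h4 : (kk κ a).left 1 = ⟨(sec κ 1)⁻¹ * a * sec κ ((κ a)⁻¹ * 1), factor_mem κ a 1 h3⟩ :=
    dif_pos h3
  rw [h4] at h2
  have h5 : (sec κ 1)⁻¹ * a * sec κ ((κ a)⁻¹ * 1) = 1 := congrArg Subtype.val h2
  rw [h1, inv_one, one_mul] at h5
  have h6 : a = sec κ 1 * ((sec κ 1)⁻¹ * a * sec κ 1) * (sec κ 1)⁻¹ := by group
  rw [h6, h5]
  group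

end embed

theorem residual (G : Type) [Group G] (A : Subgroup G)
    (hcomm : ∀ a ∈ A, ∀ b ∈ A, a * b = b * a) (p : ℕ) (hp : p.Prime)
    (hres : ∀ x, x ∉ A → ∃ N : Subgroup G, N.Normal ∧ A ≤ N ∧ (∃ m : ℕ, N.index = p ^ m) ∧ x ∉ N)
    (n : ℕ) (w : Fin n → Coprod G (FreeGroup (Fin n)))
    (hdet : IsCoprime (Matrix.of fun i j : Fin n => Multiplicative.toAdd (eta G n i (w j))).det
      (p : ℤ)) :
    Function.Injective ((QuotientGroup.mk' (Subgroup.normalClosure (Set.range w))).comp
      (Coprod.inl : G →* Coprod G (FreeGroup (Fin n)))) := by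
  classical
  haveI : Fact p.Prime := ⟨hp⟩
  have hker : (toPro A p).ker ≤ A := by
    intro x hx
    by_contra hxA
    obtain ⟨N, h1, h2, h3, h4⟩ := hres x hxA
    apply h4
    have h5 := congrFun (MonoidHom.mem_ker.1 hx) (⟨N, h1, h2, h3⟩ : Idx A p)
    exact (QuotientGroup.eq_one_iff (N := N) x).1 h5
  haveI hAc : IsMulCommutative (toPro A p).ker :=
    isMulCommutative_iff.2 fun a b => Subtype.ext (hcomm a (hker a.2) b (hker b.2))
  have hsol : ∀ N : Idx A p, ∃ b : Fin n → G ⧸ N.1, ∀ j, ev (QuotientGroup.mk' N.1) b (w j) = 1 := by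
    intro N
    haveI := finite_idx A p hp N
    obtain ⟨b, hb, -⟩ := unique_solution p w hdet _ (G ⧸ N.1) le_rfl (pgroup_idx A p hp N)
      (QuotientGroup.mk' N.1) (fun _ => 1)
    exact ⟨b, hb⟩
  choose b' hb' using hsol
  let b : Fin n → Pro A p := fun i N => b' N i
  have hb : ∀ j, ev (toPro A p) b (w j) = 1 := by
    intro j
    funext N
    let prj : Pro A p →* G ⧸ N.1 :=
      { toFun := fun x => x N
        map_one' := rfl
        map_mul' := by intro x y; rfl }
    have h1 : prj (ev (toPro A p) b (w j)) = ev (prj.comp (toPro A p)) (fun i => prj (b i)) (w j) :=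
      ev_comp _ _ _ _
    exact h1.trans (hb' N j)
  let W := RegularWreathProduct (toPro A p).ker (Pro A p)
  let E : G →* W := kk (toPro A p)
  let t : Fin n → W := fun i => RegularWreathProduct.inl (b i)
  let e := ev E t
  have hright : ∀ γ, (e γ).right = ev (toPro A p) b γ := by
    intro γ
    exact ev_comp (RegularWreathProduct.rightHom : W →* Pro A p) E t γ
  let f : Coprod G (FreeGroup (Fin n)) → (Pro A p → (toPro A p).ker) := fun γ => (e γ).left
  have hf1 : ∀ s ∈ (ev (toPro A p) b).ker, ∀ s' ∈ (ev (toPro A p) b).ker,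
      f (s * s') = f s * f s' := by
    intro s hs s' _
    show (e (s * s')).left = (e s).left * (e s').left
    have h2 : (e s).right = 1 := by rw [hright, MonoidHom.mem_ker.1 hs]
    rw [map_mul, RegularWreathProduct.mul_left, h2]
    congr 1
    funext x
    rw [inv_one, one_mul]
  rw [injective_iff_map_eq_one]
  intro g hg
  have hu : (Coprod.inl g : Coprod G (FreeGroup (Fin n))) ∈
      Subgroup.normalClosure (Set.range w) := (QuotientGroup.eq_one_iff _).1 hg
  have h1 := vanish' A p hp w hdet b hb g hu _ f hf1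
  have h2 : (Coprod.inl g : Coprod G (FreeGroup (Fin n))) ∈ (ev (toPro A p) b).ker := by
    have h3 : Subgroup.normalClosure (Set.range w) ≤ (ev (toPro A p) b).ker := by
      apply Subgroup.normalClosure_le_normal
      rintro _ ⟨j, rfl⟩
      exact MonoidHom.mem_ker.2 (hb j)
    exact h3 hu
  have h3 : e (Coprod.inl g) = E g := by
    simp [e, ev]
  apply kk_injective (toPro A p) g
  show E g = 1
  rw [← h3]
  refine RegularWreathProduct.ext h1 ?_
  rw [hright, MonoidHom.mem_ker.1 h2]
  rfl

end Pool.Agent.TH63.KQ
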