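import Pool.Agent.TH63.KQ.Vanish

/-!
# Abelian-by-(finite `q`-group) groups
-/

set_option autoImplicit false

open Monoid
open scoped IsMulCommutative

namespace Pool.Agent.TH63.KQ

section comm

variable {G : Type} [Group G] (A : Subgroup G) [A.Normal] [IsMulCommutative A]

/-- the subgroup of all products of commutators `[a_l, k_l]` -/
def comm {r : ℕ} (k : Fin r → G) : Subgroup A where
  carrier := {x | ∃ a : Fin r → A, x = ∏ l, a l * (MulAut.conjNormal (k l) (a l))⁻¹}
  mul_mem' := by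
    rintro _ _ ⟨a, rfl⟩ ⟨b, rfl⟩
    refine ⟨a * b, ?_⟩
    rw [← Finset.prod_mul_distrib]
    refine Finset.prod_congr rfl fun l _ => ?_
    rw [Pi.mul_apply, map_mul, mul_inv, mul_mul_mul_comm]
  one_mem' := ⟨1, by simp⟩
  inv_mem' := by
    rintro _ ⟨a, rfl⟩
    refine ⟨a⁻¹, ?_⟩
    rw [← Finset.prod_inv_distrib]
    refine Finset.prod_congr rfl fun l _ => ?_
    rw [Pi.inv_apply, map_inv, mul_inv]

lemma mem_comm {r : ℕ} (k : Fin r → G) (x : A) :
    x ∈ comm A k ↔ ∃ a : Fin r → A, x = ∏ l, a l * (MulAut.conjNormal (k l) (a l))⁻¹ := Iff.rfl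

lemma comm_single {r : ℕ} (k : Fin r → G) (l : Fin r) (a : A) :
    MulAut.conjNormal (k l) a * a⁻¹ ∈ comm A k := by
  classical
  have h : a * (MulAut.conjNormal (k l) a)⁻¹ ∈ comm A k := by
    refine ⟨Pi.mulSingle l a, ?_⟩
    rw [Finset.prod_eq_single l]
    · rw [Pi.mulSingle_eq_same]
    · intro i _ hi
      rw [Pi.mulSingle_eq_of_ne hi, map_one, inv_one, mul_one]
    · intro h
      exact absurd (Finset.mem_univ _) h
  have h2 := (comm A k).inv_mem h
  rw [mul_inv_rev, inv_inv] at h2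
  exact h2

lemma shift : ∀ (r : ℕ) (k : Fin r → G) (a : Fin r → A), ∃ u : Fin r → A,
    (List.ofFn fun l => (u l : G) * k l * (u l : G)⁻¹).prod =
      ((∏ l, a l * (MulAut.conjNormal (k l) (a l))⁻¹ : A) : G) * (List.ofFn k).prod := by
  intro r
  induction r with
  | zero =>
    intro k a
    exact ⟨fun l => l.elim0, by simp⟩
  | succ r ih =>
    intro k a
    obtain ⟨u, hu⟩ := ih (fun l => k l.succ) (fun l => a l.succ)
    set x : A := ∏ l : Fin r, a l.succ * (MulAut.conjNormal (k l.succ) (a l.succ))⁻¹ with hx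
    refine ⟨Fin.cons (a 0 * x) u, ?_⟩
    rw [List.ofFn_succ, List.prod_cons, Fin.prod_univ_succ, List.ofFn_succ (f := k), List.prod_cons]
    simp only [Fin.cons_zero, Fin.cons_succ]
    rw [hu, ← hx]
    have h1 : (x : G)⁻¹ * (a 0 : G)⁻¹ * (x : G) = (a 0 : G)⁻¹ := by
      have h := congrArg (Subtype.val : A → G) (show x⁻¹ * (a 0)⁻¹ * x = (a 0)⁻¹ by
        rw [mul_right_comm, inv_mul_cancel, one_mul])
      exact h
    have h2 : (k 0 * (a 0 : G)⁻¹ * (k 0)⁻¹) * (x : G) = (x : G) * (k 0 * (a 0 : G)⁻¹ * (k 0)⁻¹) := by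
      have h := congrArg (Subtype.val : A → G)
        (mul_comm (MulAut.conjNormal (k 0) (a 0)⁻¹) x)
      simp only [Subgroup.coe_mul, MulAut.conjNormal_apply, Subgroup.coe_inv] at h
      exact h
    have h3 : (((MulAut.conjNormal (k 0) (a 0))⁻¹ : A) : G) = k 0 * (a 0 : G)⁻¹ * (k 0)⁻¹ := by
      rw [← map_inv, MulAut.conjNormal_apply]
      rfl
    rw [Subgroup.coe_mul, Subgroup.coe_mul, Subgroup.coe_mul, h3]
    calc (a 0 : G) * (x : G) * k 0 * ((a 0 : G) * (x : G))⁻¹ *
          ((x : G) * (List.ofFn fun l => k l.succ).prod)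
        = (a 0 : G) * (x : G) * k 0 * ((x : G)⁻¹ * (a 0 : G)⁻¹ * (x : G)) *
          (List.ofFn fun l => k l.succ).prod := by group
      _ = (a 0 : G) * ((x : G) * (k 0 * (a 0 : G)⁻¹ * (k 0)⁻¹)) * k 0 *
          (List.ofFn fun l => k l.succ).prod := by rw [h1]; group
      _ = _ := by rw [← h2]; group

end comm

theorem main (G : Type) [Group G] (A : Subgroup G) [A.Normal] [IsMulCommutative A]
    (C : Subgroup G) [C.Normal] (hC : ∀ x ∈ C, ∀ a ∈ A, x * a = a * x) (hAC : A ≤ C)
    (q : ℕ) [Fact q.Prime] [Finite (G ⧸ C)] (hK : IsPGroup q (G ⧸ C)) (n : ℕ)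
    (w : Fin n → Coprod G (FreeGroup (Fin n)))
    (hdet : IsCoprime (Matrix.of fun i j : Fin n => Multiplicative.toAdd (eta G n i (w j))).det
      (q : ℤ))
    (t : Fin n → G) (ht : ∀ j, ev (MonoidHom.id G) t (w j) ∈ A)
    (r : ℕ) (g : Fin r → G)
    (hg : ∃ h : Fin r → (Coprod G (FreeGroup (Fin n)) ⧸ Subgroup.normalClosure (Set.range w)),
      (List.ofFn fun i => h i * QuotientGroup.mk' (Subgroup.normalClosure (Set.range w))
        (Coprod.inl (g i)) * (h i)⁻¹).prod = 1) :
    ∃ x : Fin r → G, (List.ofFn fun i => x i * g i * (x i)⁻¹).prod = 1 := by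
  classical
  obtain ⟨h, hh⟩ := hg
  have hlift : ∀ i, ∃ γ, QuotientGroup.mk' (Subgroup.normalClosure (Set.range w)) γ = h i :=
    fun i => QuotientGroup.mk'_surjective _ (h i)
  choose s hs using hlift
  set u := (List.ofFn fun l => s l * Coprod.inl (g l) * (s l)⁻¹).prod with hu_def
  have hu : u ∈ Subgroup.normalClosure (Set.range w) := by
    have h1 : QuotientGroup.mk' (Subgroup.normalClosure (Set.range w)) u = 1 := by
      rw [hu_def, map_list_prod, List.map_ofFn, ← hh]
      congr 2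
      funext i
      simp [← hs i]
    exact (QuotientGroup.eq_one_iff u).1 h1
  let e : Coprod G (FreeGroup (Fin n)) →* G := ev (MonoidHom.id G) t
  let b : Fin n → G ⧸ C := fun i => QuotientGroup.mk' C (t i)
  have he : ∀ γ, QuotientGroup.mk' C (e γ) = ev (QuotientGroup.mk' C) b γ := by
    intro γ
    have h1 := ev_comp (QuotientGroup.mk' C) (MonoidHom.id G) t γ
    rw [MonoidHom.comp_id] at h1
    exact h1
  let S : Subgroup (Coprod G (FreeGroup (Fin n))) := A.comap e
  have hSK : S ≤ (ev (QuotientGroup.mk' C) b).ker := by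
    intro γ hγ
    rw [MonoidHom.mem_ker, ← he]
    exact (QuotientGroup.eq_one_iff _).2 (hAC hγ)
  have hwS : ∀ j, w j ∈ S := ht
  have heA : ∀ γ, γ ∈ S ↔ e γ ∈ A := fun _ => Iff.rfl
  let k : Fin r → G := fun l => e (s l * Coprod.inl (g l) * (s l)⁻¹)
  have hk : ∀ l, k l = e (s l) * g l * (e (s l))⁻¹ := by
    intro l
    show e (s l * Coprod.inl (g l) * (s l)⁻¹) = _
    rw [map_mul, map_mul, map_inv]
    simp [e, ev]
  let L := comm A k
  let N : Subgroup G :=
    { carrier := {x | ∀ a : A, MulAut.conjNormal x a * a⁻¹ ∈ L}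
      mul_mem' := by
        intro x y hx hy a
        have h1 := L.mul_mem (hx (MulAut.conjNormal y a)) (hy a)
        rw [mul_assoc, inv_mul_cancel_left] at h1
        rw [map_mul]
        exact h1
      one_mem' := by
        intro a
        rw [map_one, MulAut.one_apply, mul_inv_cancel]
        exact L.one_mem
      inv_mem' := by
        intro x hx a
        have h1 := hx (MulAut.conjNormal x⁻¹ a)
        have h2 : MulAut.conjNormal x (MulAut.conjNormal x⁻¹ a) = a := by
          rw [← MulAut.mul_apply, ← map_mul, mul_inv_cancel, map_one, MulAut.one_apply]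
        rw [h2] at h1
        have h3 := L.inv_mem h1
        rw [mul_inv_rev, inv_inv] at h3
        exact h3 }
  have hCN : C ≤ N := by
    intro x hx a
    have h1 : MulAut.conjNormal x a = a := by
      apply Subtype.ext
      rw [MulAut.conjNormal_apply, hC x hx a a.2, mul_inv_cancel_right]
    rw [h1, mul_inv_cancel]
    exact L.one_mem
  let M : Subgroup (G ⧸ C) := N.map (QuotientGroup.mk' C)
  have hMN : ∀ x : G, QuotientGroup.mk' C x ∈ M → x ∈ N := by
    rintro x ⟨y, hy, hyx⟩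
    have h1 : y⁻¹ * x ∈ C := QuotientGroup.eq.1 hyx
    have h2 := N.mul_mem hy (hCN h1)
    rwa [mul_inv_cancel_left] at h2
  have hkN : ∀ l, k l ∈ N := fun l a => comm_single A k l a
  have hM : ∀ l, ev (QuotientGroup.mk' C) b (s l * Coprod.inl (g l) * (s l)⁻¹) ∈ M := by
    intro l
    rw [← he]
    exact ⟨k l, hkN l, rfl⟩
  let f : Coprod G (FreeGroup (Fin n)) → A ⧸ L := fun γ =>
    if hγ : e γ ∈ A then QuotientGroup.mk (⟨e γ, hγ⟩ : A) else 1
  have hf : ∀ γ (hγ : e γ ∈ A), f γ = QuotientGroup.mk (⟨e γ, hγ⟩ : A) := by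
    intro γ hγ
    exact dif_pos hγ
  have hf1 : ∀ x ∈ S, ∀ y ∈ S, f (x * y) = f x * f y := by
    intro x hx y hy
    rw [heA] at hx hy
    have hxy : e (x * y) ∈ A := by
      rw [map_mul]
      exact A.mul_mem hx hy
    rw [hf _ hx, hf _ hy, hf _ hxy, ← QuotientGroup.mk_mul]
    congr 1
    apply Subtype.ext
    simp
  have hf2 : ∀ m ∈ M.comap (ev (QuotientGroup.mk' C) b), ∀ x ∈ S, f (m * x * m⁻¹) = f x := by
    intro m hm x hx
    rw [heA] at hx
    rw [Subgroup.mem_comap, ← he] at hm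
    have hmN := hMN _ hm
    have hmx : e (m * x * m⁻¹) ∈ A := by
      rw [map_mul, map_mul, map_inv]
      exact (inferInstance : A.Normal).conj_mem _ hx _
    rw [hf _ hx, hf _ hmx]
    refine (QuotientGroup.eq.2 ?_).symm
    have h1 := hmN ⟨e x, hx⟩
    rw [mul_comm] at h1
    convert h1 using 2
    apply Subtype.ext
    rw [MulAut.conjNormal_apply]
    simp
  have hfu := vanish q w hdet (G ⧸ C) hK (QuotientGroup.mk' C) b S hSK hwS M r g s hM hu
    (A ⧸ L) f hf1 hf2
  have huA : e u ∈ A := by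
    have h1 : Subgroup.normalClosure (Set.range w) ≤ S := by
      apply Subgroup.normalClosure_le_normal
      rintro _ ⟨j, rfl⟩
      exact hwS j
    exact h1 hu
  rw [← hu_def, hf _ huA, QuotientGroup.eq_one_iff] at hfu
  obtain ⟨a, ha⟩ := (mem_comm A k _).1 (L.inv_mem hfu)
  obtain ⟨v, hv⟩ := shift A r k a
  rw [← ha] at hv
  have huk : e u = (List.ofFn k).prod := by
    rw [hu_def, map_list_prod, List.map_ofFn]
    rfl
  refine ⟨fun l => (v l : G) * e (s l), ?_⟩
  have h1 : (fun l => (v l : G) * e (s l) * g l * ((v l : G) * e (s l))⁻¹) =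
      fun l => (v l : G) * k l * (v l : G)⁻¹ := by
    funext l
    rw [hk l]
    group
  rw [h1, hv, ← huk]
  simp

end Pool.Agent.TH63.KQ
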