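import Pool.Agent.TH63.KQ.Main

/-!
# An abelian normal subgroup of prime power index
-/

set_option autoImplicit false

open Monoid

namespace Pool.Agent.TH63.KQ

theorem power (G : Type) [Group G] (A : Subgroup G) (hnormal : A.Normal)
    (hcomm : ∀ a ∈ A, ∀ b ∈ A, a * b = b * a) (q : ℕ) (hq : q.Prime) (n : ℕ)
    (w : Fin n → Coprod G (FreeGroup (Fin n)))
    (hcop : IsCoprime (Matrix.of fun i j : Fin n => Multiplicative.toAdd (eta G n i (w j))).det
      (q : ℤ))
    (hA : ∃ k : ℕ, A.index = q ^ k)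
    (r : ℕ) (g : Fin r → G)
    (hg : ∃ h : Fin r → (Coprod G (FreeGroup (Fin n)) ⧸ Subgroup.normalClosure (Set.range w)),
      (List.ofFn fun i => h i * QuotientGroup.mk' (Subgroup.normalClosure (Set.range w))
        (Coprod.inl (g i)) * (h i)⁻¹).prod = 1) :
    ∃ x : Fin r → G, (List.ofFn fun i => x i * g i * (x i)⁻¹).prod = 1 := by
  haveI := hnormal
  haveI : Fact q.Prime := ⟨hq⟩
  haveI hAc : IsMulCommutative A :=
    isMulCommutative_iff.2 fun a b => Subtype.ext (hcomm a a.2 b b.2)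
  have hAC : A ≤ Subgroup.centralizer (A : Set G) := Subgroup.le_centralizer A
  have hfin : ∀ B : Subgroup G, ∀ k : ℕ, B.index = q ^ k → Finite (G ⧸ B) := by
    intro B k hk
    refine Nat.finite_of_card_ne_zero ?_
    rw [← Subgroup.index_eq_card, hk]
    exact pow_ne_zero _ hq.ne_zero
  obtain ⟨k, hk⟩ := hA
  have hC : ∃ k : ℕ, (Subgroup.centralizer (A : Set G)).index = q ^ k := by
    have h1 := Subgroup.index_dvd_of_le hAC
    rw [hk] at h1
    obtain ⟨m, -, hm⟩ := (Nat.dvd_prime_pow hq).1 h1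
    exact ⟨m, hm⟩
  haveI := hfin A k hk
  have hP : IsPGroup q (G ⧸ A) := IsPGroup.of_card (n := k) (by
    rw [← Subgroup.index_eq_card, hk])
  obtain ⟨b, hb, -⟩ := unique_solution q w hcop _ (G ⧸ A) le_rfl hP
    (QuotientGroup.mk' A) (fun _ => 1)
  have hl : ∀ i, ∃ γ : G, QuotientGroup.mk' A γ = b i :=
    fun i => QuotientGroup.mk'_surjective _ (b i)
  choose t ht using hl
  have htA : ∀ j, ev (MonoidHom.id G) t (w j) ∈ A := by
    intro j
    have h1 := ev_comp (QuotientGroup.mk' A) (MonoidHom.id G) t (w j)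
    rw [funext ht, MonoidHom.comp_id, hb j] at h1
    exact (QuotientGroup.eq_one_iff _).1 h1
  obtain ⟨m, hm⟩ := hC
  haveI := hfin _ m hm
  have hK : IsPGroup q (G ⧸ Subgroup.centralizer (A : Set G)) := IsPGroup.of_card (n := m) (by
    rw [← Subgroup.index_eq_card, hm])
  exact main G A (Subgroup.centralizer (A : Set G))
    (fun x hx a ha => (Subgroup.mem_centralizer_iff.1 hx a ha).symm) hAC q hK n w hcop t htA r g hg

end Pool.Agent.TH63.KQ
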