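import Pool.Agent.TH63.KQ.Vanish

/-!
# Abelian-by-(residually finite `p`) groups
-/

set_option autoImplicit false

open Monoid
open scoped IsMulCommutative

namespace Pool.Agent.TH63.KQ

theorem exists_coeff' {Γ : Type} [Group Γ] {ι : Type}
    (S : Subgroup Γ) [S.Normal] (w : ι → Γ) (hw : ∀ j, w j ∈ S) (u : Γ)
    (hu : u ∈ Subgroup.normalClosure (Set.range w)) :
    u ∈ S ∧ ∃ ξ : ι × (Γ ⧸ S) →₀ ℤ, ∀ (B : Type) [CommGroup B] (f : Γ → B),
      (∀ s ∈ S, ∀ s' ∈ S, f (s * s') = f s * f s') →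
      f u = ξ.prod fun p m => f (p.2.out⁻¹ * w p.1 * p.2.out) ^ m := by
  have hone : ∀ (B : Type) [CommGroup B] (f : Γ → B),
      (∀ s ∈ S, ∀ s' ∈ S, f (s * s') = f s * f s') → f 1 = 1 := by
    intro B _ f hf
    have h := hf 1 S.one_mem 1 S.one_mem
    rw [mul_one] at h
    exact (mul_eq_left.1 h.symm)
  have hinv : ∀ (B : Type) [CommGroup B] (f : Γ → B),
      (∀ s ∈ S, ∀ s' ∈ S, f (s * s') = f s * f s') → ∀ x ∈ S, f x⁻¹ = (f x)⁻¹ := by
    intro B _ f hf x hx
    have h := hf x⁻¹ (S.inv_mem hx) x hx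
    rw [inv_mul_cancel, hone B f hf] at h
    exact eq_inv_of_mul_eq_one_left h.symm
  unfold Subgroup.normalClosure at hu
  induction hu using Subgroup.closure_induction with
  | mem x hx =>
    obtain ⟨a, ⟨j, rfl⟩, hconj⟩ := Group.mem_conjugatesOfSet_iff.1 hx
    obtain ⟨c, hc⟩ := isConj_iff.1 hconj
    have hxS : x ∈ S := by
      rw [← hc]
      exact (inferInstance : S.Normal).conj_mem _ (hw j) c
    refine ⟨hxS, Finsupp.single (j, (QuotientGroup.mk c⁻¹ : Γ ⧸ S)) 1, ?_⟩
    intro B _ f hf1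
    rw [Finsupp.prod_single_index (zpow_zero _)]
    obtain ⟨m, hm⟩ := QuotientGroup.mk_out_eq_mul S c⁻¹
    rw [zpow_one, hm]
    have h1 : (c⁻¹ * (m : Γ))⁻¹ * w j * (c⁻¹ * (m : Γ)) =
        ((m : Γ)⁻¹) * x * (m : Γ) := by
      rw [← hc]
      group
    rw [h1, hf1 _ (S.mul_mem (S.inv_mem m.2) hxS) _ m.2, hf1 _ (S.inv_mem m.2) _ hxS,
      hinv B f hf1 _ m.2, mul_right_comm, inv_mul_cancel, one_mul]
  | one =>
    refine ⟨S.one_mem, 0, ?_⟩
    intro B _ f hf1
    rw [hone B f hf1, Finsupp.prod_zero_index]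
  | mul x y hx hy ihx ihy =>
    obtain ⟨hxS, ξ, hξ⟩ := ihx
    obtain ⟨hyS, η, hη⟩ := ihy
    refine ⟨S.mul_mem hxS hyS, ξ + η, ?_⟩
    intro B _ f hf1
    classical
    rw [hf1 x hxS y hyS, hξ B f hf1, hη B f hf1,
      Finsupp.prod_add_index' (fun _ => zpow_zero _) (fun _ _ _ => zpow_add _ _ _)]
  | inv x hx ihx =>
    obtain ⟨hxS, ξ, hξ⟩ := ihx
    refine ⟨S.inv_mem hxS, -ξ, ?_⟩
    intro B _ f hf1
    rw [hinv B f hf1 x hxS, hξ B f hf1, Finsupp.prod_neg_index (fun _ => zpow_zero _)]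
    simp only [Finsupp.prod, zpow_neg, Finset.prod_inv_distrib]

section

variable {G : Type} [Group G] (A : Subgroup G) (p : ℕ)

/-- the normal subgroups of `p`-power index containing `A` -/
def Idx : Type := {N : Subgroup G // N.Normal ∧ A ≤ N ∧ ∃ m : ℕ, N.index = p ^ m}

instance (N : Idx A p) : N.1.Normal := N.2.1

/-- the product of the finite `p`-quotients of `G/A` -/
abbrev Pro : Type := ∀ N : Idx A p, G ⧸ N.1

/-- the map from `G` -/
def toPro : G →* Pro A p :=
  { toFun := fun g N => QuotientGroup.mk' N.1 g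
    map_one' := by funext N; exact map_one _
    map_mul' := by intro x y; funext N; exact map_mul _ _ _ }

/-- a finite product -/
abbrev Par (T : Finset (Idx A p)) : Type := ∀ N : T, G ⧸ N.1.1

/-- the restriction of coordinates -/
def restr (T : Finset (Idx A p)) : Pro A p →* Par A p T :=
  { toFun := fun x N => x N.1
    map_one' := rfl
    map_mul' := by intro x y; rfl }

lemma finite_idx (hp : p.Prime) (N : Idx A p) : Finite (G ⧸ N.1) := by
  obtain ⟨m, hm⟩ := N.2.2.2
  refine Nat.finite_of_card_ne_zero ?_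
  rw [← Subgroup.index_eq_card, hm]
  exact pow_ne_zero _ hp.ne_zero

lemma pgroup_idx (hp : p.Prime) (N : Idx A p) : IsPGroup p (G ⧸ N.1) := by
  obtain ⟨m, hm⟩ := N.2.2.2
  haveI : Fact p.Prime := ⟨hp⟩
  exact IsPGroup.of_card (n := m) (by rw [← Subgroup.index_eq_card, hm])

lemma finite_par (hp : p.Prime) (T : Finset (Idx A p)) : Finite (Par A p T) := by
  haveI : ∀ N : T, Finite (G ⧸ N.1.1) := fun N => finite_idx A p hp N.1
  infer_instance

lemma pgroup_par (hp : p.Prime) (T : Finset (Idx A p)) : IsPGroup p (Par A p T) := by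
  intro x
  have h : ∀ N : T, ∃ k : ℕ, (x N) ^ p ^ k = 1 := fun N => pgroup_idx A p hp N.1 (x N)
  choose k hk using h
  refine ⟨∑ N, k N, ?_⟩
  funext N
  show (x N) ^ p ^ (∑ N, k N) = 1
  obtain ⟨d, hd⟩ : p ^ k N ∣ p ^ (∑ N, k N) :=
    pow_dvd_pow p (Finset.single_le_sum (fun _ _ => Nat.zero_le _) (Finset.mem_univ N))
  rw [hd, pow_mul, hk, one_pow]

end

open RegularWreathProduct in
theorem vanish' {G : Type} [Group G] (A : Subgroup G) {n : ℕ} (p : ℕ) (hp : p.Prime)
    (w : Fin n → Coprod G (FreeGroup (Fin n)))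
    (hdet : IsCoprime (Matrix.of fun i j : Fin n => Multiplicative.toAdd (eta G n i (w j))).det
      (p : ℤ))
    (b : Fin n → Pro A p) (hb : ∀ j, ev (toPro A p) b (w j) = 1) (g : G)
    (hu : Coprod.inl g ∈ Subgroup.normalClosure (Set.range w))
    (B : Type) [CommGroup B] (f : Coprod G (FreeGroup (Fin n)) → B)
    (hf1 : ∀ s ∈ (ev (toPro A p) b).ker, ∀ s' ∈ (ev (toPro A p) b).ker,
      f (s * s') = f s * f s') :
    f (Coprod.inl g) = 1 := by
  classical
  haveI : Fact p.Prime := ⟨hp⟩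
  set π := ev (toPro A p) b with hπ
  obtain ⟨hgS, ξ, hξ⟩ := exists_coeff' π.ker w (fun j => MonoidHom.mem_ker.2 (hb j)) _ hu
  have hξ0 : ξ = 0 := by
    ext ⟨j0, ω0⟩
    refine int_zero p hp.one_lt _ fun s => ?_
    haveI : NeZero (p ^ s) := ⟨pow_ne_zero _ hp.ne_zero⟩
    let D := Multiplicative (ZMod (p ^ s))
    let T : Finset (Idx A p) := ξ.support.biUnion fun q =>
      if h : π q.2.out ≠ π ω0.out then {Classical.choose (Function.ne_iff.1 h)} else ∅
    let P := Par A p T
    haveI : Finite P := finite_par A p hp T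
    have hPp : IsPGroup p P := pgroup_par A p hp T
    let ρ : Pro A p →* P := restr A p T
    have hρ : ∀ q ∈ ξ.support, ρ (π q.2.out) = ρ (π ω0.out) → q.2 = ω0 := by
      intro q hq h
      by_contra hne
      have h1 : π q.2.out ≠ π ω0.out := by
        intro h2
        apply hne
        rw [← QuotientGroup.out_eq' q.2, ← QuotientGroup.out_eq' ω0]
        refine QuotientGroup.eq.2 ?_
        rw [MonoidHom.mem_ker, map_mul, map_inv, h2, inv_mul_cancel]
      have h3 : Classical.choose (Function.ne_iff.1 h1) ∈ T := by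
        rw [Finset.mem_biUnion]
        exact ⟨q, hq, by rw [dif_pos h1]; exact Finset.mem_singleton_self _⟩
      exact Classical.choose_spec (Function.ne_iff.1 h1) (congrFun h ⟨_, h3⟩)
    have hcardD : Nat.card D = p ^ s := by
      show Nat.card (ZMod (p ^ s)) = p ^ s
      rw [Nat.card_eq_fintype_card, ZMod.card]
    have hPG : IsPGroup p (D ≀ᵣ P) := by
      obtain ⟨k, hk⟩ := (IsPGroup.iff_card (p := p)).1 hPp
      refine IsPGroup.of_card (n := s * p ^ k + k) ?_
      rw [RegularWreathProduct.card, hcardD, hk, ← pow_mul, ← pow_add]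
    let φ : G →* P := ρ.comp (toPro A p)
    let δ : Fin n → P → D := fun j x =>
      if j = j0 ∧ x = ρ (π ω0.out) then Multiplicative.ofAdd (1 : ZMod (p ^ s)) else 1
    obtain ⟨t, ht, -⟩ := unique_solution p w hdet _ (D ≀ᵣ P) le_rfl hPG
      ((RegularWreathProduct.inl : P →* D ≀ᵣ P).comp φ) (fun j => ⟨δ j, 1⟩)
    obtain ⟨b', -, hb'⟩ := unique_solution p w hdet _ P le_rfl hPp φ (fun _ => 1)
    let Φ := ev ((RegularWreathProduct.inl : P →* D ≀ᵣ P).comp φ) t
    have hright : ∀ γ, (Φ γ).right = ρ (π γ) := by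
      have h1 : ∀ γ, (RegularWreathProduct.rightHom : D ≀ᵣ P →* P) (Φ γ) =
          ev φ (fun i => (RegularWreathProduct.rightHom : D ≀ᵣ P →* P) (t i)) γ := by
        intro γ
        exact ev_comp _ _ _ γ
      have h1' : ∀ γ, ρ (π γ) = ev φ (fun i => ρ (b i)) γ := by
        intro γ
        exact ev_comp _ _ _ γ
      have h2 : (fun i => (RegularWreathProduct.rightHom : D ≀ᵣ P →* P) (t i)) =
          fun i => ρ (b i) := by
        rw [hb' (fun i => ρ (b i)) (fun j => by rw [← h1', hb j, map_one])]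
        apply hb'
        intro j
        rw [← h1]
        show (RegularWreathProduct.rightHom : D ≀ᵣ P →* P) (ev _ t (w j)) = 1
        rw [ht j]
        rfl
      intro γ
      have h3 := h1 γ
      rw [h2, ← h1'] at h3
      exact h3
    let Λ : Coprod G (FreeGroup (Fin n)) → D := fun γ => (Φ γ).left 1
    have hΛ1 : ∀ x ∈ π.ker, ∀ y ∈ π.ker, Λ (x * y) = Λ x * Λ y := by
      intro x hx y _
      show (Φ (x * y)).left 1 = (Φ x).left 1 * (Φ y).left 1
      have h2 : (Φ x).right = 1 := by rw [hright, MonoidHom.mem_ker.1 hx, map_one]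
      rw [map_mul, RegularWreathProduct.mul_left, h2]
      simp
    have hΛu : Λ (Coprod.inl g) = 1 := by
      show (Φ (Coprod.inl g)).left 1 = 1
      have h2 : Φ (Coprod.inl g) = RegularWreathProduct.inl (φ g) := by
        simp [Φ, ev]
      rw [h2]
      simp
    rw [hξ D Λ hΛ1] at hΛu
    have h6 : ∀ q ∈ ξ.support, Λ (q.2.out⁻¹ * w q.1 * q.2.out) = if q = (j0, ω0) then
          Multiplicative.ofAdd (1 : ZMod (p ^ s)) else 1 := by
      rintro ⟨j, ω⟩ hq
      show (Φ (ω.out⁻¹ * w j * ω.out)).left 1 = _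
      have h7 : (Φ (ω.out⁻¹ * w j * ω.out)).left 1 = δ j (ρ (π ω.out)) := by
        have h8 : Φ (w j) = ⟨δ j, 1⟩ := ht j
        have hii : ∀ x : P, x⁻¹⁻¹ = x := fun x => inv_inv x
        rw [map_mul, map_mul, map_inv, h8]
        simp only [RegularWreathProduct.mul_left, RegularWreathProduct.mul_right,
          RegularWreathProduct.inv_left, RegularWreathProduct.inv_right, Pi.mul_apply,
          Pi.inv_apply, mul_one, hii, hright]
        rw [mul_right_comm, inv_mul_cancel, one_mul]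
      rw [h7]
      by_cases hj : j = j0
      · subst hj
        by_cases hω : ω = ω0
        · subst hω
          simp [δ]
        · have h9 : ¬ (ρ (π ω.out) = ρ (π ω0.out)) := fun h => hω (hρ (j, ω) hq h)
          rw [if_neg (by simpa using hω)]
          simp [δ, h9]
      · rw [if_neg (by simp [hj])]
        simp [δ, hj]
    have h10 : (ξ.prod fun q m => Λ (q.2.out⁻¹ * w q.1 * q.2.out) ^ m) =
        Multiplicative.ofAdd (((ξ (j0, ω0) : ℤ)) : ZMod (p ^ s)) := by
      rw [Finsupp.prod]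
      rw [Finset.prod_congr rfl (fun q hq => by rw [h6 q hq])]
      rw [Finset.prod_eq_single (j0, ω0)]
      · rw [if_pos rfl, ← ofAdd_zsmul, zsmul_one]
      · intro q _ hq
        rw [if_neg hq, one_zpow]
      · intro h9
        rw [Finsupp.notMem_support_iff.1 h9, zpow_zero]
    rw [h10] at hΛu
    have h9 : ((ξ (j0, ω0) : ℤ) : ZMod (p ^ s)) = 0 := hΛu
    exact (ZMod.intCast_zmod_eq_zero_iff_dvd _ _).1 h9
  rw [hξ B f hf1, hξ0, Finsupp.prod_zero_index]

end Pool.Agent.TH63.KQ
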