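import Pool.Agent.TH63.KQ.Power

/-!
# Subgroups of free groups inducing an isomorphism on `H_1( ; Z/p)`
-/

set_option autoImplicit false

open Monoid
open scoped TensorProduct

namespace Pool.Agent.TH63.KQ

/-- a homomorphism to `Z/p` as a linear map on `H_1( ; Z/p)` -/
noncomputable def lin {X : Type} [Group X] {p : ℕ} (χ : X →* Multiplicative (ZMod p)) :
    Additive (Abelianization X) →ₗ[ℤ] ZMod p :=
  AddMonoidHom.toIntLinearMap (MonoidHom.toAdditiveLeft (Abelianization.lift χ))

/-- a homomorphism to `Z/p` as a linear map on `H_1( ; Z/p)` -/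
noncomputable def tens {X : Type} [Group X] {p : ℕ} (χ : X →* Multiplicative (ZMod p)) :
    Additive (Abelianization X) ⊗[ℤ] ZMod p →ₗ[ℤ] ZMod p :=
  TensorProduct.lift ((LinearMap.mul ℤ (ZMod p)).comp (lin χ))

lemma tens_of {X : Type} [Group X] {p : ℕ} (χ : X →* Multiplicative (ZMod p)) (x : X)
    (c : ZMod p) :
    tens χ ((Additive.ofMul (Abelianization.of x)) ⊗ₜ c) = Multiplicative.toAdd (χ x) * c := by
  refine (TensorProduct.lift.tmul _ _).trans ?_
  show Multiplicative.toAdd (Abelianization.lift χ (Abelianization.of x)) * c = _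
  rw [Abelianization.lift_apply_of]

variable {k p : ℕ} (S : Subgroup (FreeGroup (Fin k)))

/-- the map `H_1(S; Z/p) → H_1(F; Z/p)` -/
noncomputable abbrev hmap (p : ℕ) : Additive (Abelianization S) ⊗[ℤ] ZMod p →ₗ[ℤ]
    Additive (Abelianization (FreeGroup (Fin k))) ⊗[ℤ] ZMod p :=
  LinearMap.rTensor (ZMod p)
    (AddMonoidHom.toIntLinearMap (MonoidHom.toAdditive (Abelianization.map S.subtype)))

lemma hmap_of (s : S) (c : ZMod p) :
    hmap S p ((Additive.ofMul (Abelianization.of s)) ⊗ₜ c) =
      (Additive.ofMul (Abelianization.of (s : FreeGroup (Fin k)))) ⊗ₜ c := by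
  refine (LinearMap.rTensor_tmul _ _ _ _).trans ?_
  rfl

lemma extend (hS : Function.Bijective (hmap S p)) (χ : S →* Multiplicative (ZMod p)) :
    ∃ χ' : FreeGroup (Fin k) →* Multiplicative (ZMod p), ∀ s : S, χ' s = χ s := by
  let e := LinearEquiv.ofBijective (hmap S p) hS
  refine ⟨{ toFun := fun x => Multiplicative.ofAdd
              (tens χ (e.symm ((Additive.ofMul (Abelianization.of x)) ⊗ₜ (1 : ZMod p))))
            map_one' := by simp
            map_mul' := by
              intro x y
              rw [map_mul, ofMul_mul, TensorProduct.add_tmul, map_add, map_add, ofAdd_add] }, ?_⟩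
  intro s
  show Multiplicative.ofAdd
    (tens χ (e.symm ((Additive.ofMul (Abelianization.of (s : FreeGroup (Fin k)))) ⊗ₜ (1 : ZMod p)))) = _
  have h1 : e.symm ((Additive.ofMul (Abelianization.of (s : FreeGroup (Fin k)))) ⊗ₜ (1 : ZMod p)) =
      (Additive.ofMul (Abelianization.of s)) ⊗ₜ (1 : ZMod p) := by
    rw [LinearEquiv.symm_apply_eq]
    exact (hmap_of S s 1).symm
  rw [h1, tens_of, mul_one]
  rfl

lemma extend_unique (hS : Function.Bijective (hmap S p))
    (χ : FreeGroup (Fin k) →* Multiplicative (ZMod p)) (h : ∀ s : S, χ s = 1) (x : FreeGroup (Fin k)) :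
    χ x = 1 := by
  have h1 : ∀ y, tens χ (hmap S p y) = 0 := by
    intro y
    induction y using TensorProduct.induction_on with
    | zero => simp
    | tmul a c =>
      obtain ⟨s, hs⟩ : ∃ s : S, Abelianization.of s = Additive.toMul a :=
        QuotientGroup.mk_surjective _
      have h2 : a = Additive.ofMul (Abelianization.of s) := by rw [hs]; rfl
      rw [h2, hmap_of, tens_of, h s]
      simp
    | add a b ha hb => rw [map_add, map_add, ha, hb, add_zero]
  obtain ⟨y, hy⟩ := hS.2 ((Additive.ofMul (Abelianization.of x)) ⊗ₜ (1 : ZMod p))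
  have h2 := h1 y
  rw [hy, tens_of, mul_one] at h2
  exact h2

/-- the exponent sum of `x_i` -/
def expo (k : ℕ) (i : Fin k) : FreeGroup (Fin k) →* Multiplicative ℤ :=
  FreeGroup.lift fun l : Fin k => if l = i then Multiplicative.ofAdd (1 : ℤ) else 1

lemma lift_eq (v : Fin k → ZMod p) (x : FreeGroup (Fin k)) :
    FreeGroup.lift (fun i => Multiplicative.ofAdd (v i)) x =
      Multiplicative.ofAdd (∑ i, ((Multiplicative.toAdd (expo k i x) : ℤ) : ZMod p) * v i) := by
  let ψ : FreeGroup (Fin k) →* Multiplicative (ZMod p) :=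
    { toFun := fun x => Multiplicative.ofAdd
        (∑ i, ((Multiplicative.toAdd (expo k i x) : ℤ) : ZMod p) * v i)
      map_one' := by simp
      map_mul' := by
        intro x y
        rw [← ofAdd_add, ← Finset.sum_add_distrib]
        congr 1
        refine Finset.sum_congr rfl fun i _ => ?_
        rw [map_mul, toAdd_mul, Int.cast_add, add_mul] }
  have h : FreeGroup.lift (fun i => Multiplicative.ofAdd (v i)) = ψ := by
    refine FreeGroup.ext_hom _ _ fun j => ?_
    show _ = Multiplicative.ofAdd
        (∑ i, ((Multiplicative.toAdd (expo k i (FreeGroup.of j)) : ℤ) : ZMod p) * v i)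
    rw [Finset.sum_eq_single j]
    · simp [expo]
    · intro i _ hi
      simp [expo, hi.symm]
    · simp
  rw [h]
  rfl

theorem exists_basis (hp : p.Prime) (hS : Function.Bijective (hmap S p)) :
    ∃ s : Fin k → S, (∀ (X : Type) [Group X] (f f' : S →* X), (∀ j, f (s j) = f' (s j)) → f = f') ∧
      IsCoprime (Matrix.of fun i j : Fin k =>
        Multiplicative.toAdd (expo k i (s j : FreeGroup (Fin k)))).det (p : ℤ) := by
  classical
  haveI : Fact p.Prime := ⟨hp⟩
  let ι := IsFreeGroup.Generators S
  let R : (Fin k → ZMod p) → (ι → ZMod p) := fun v j =>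
    ∑ i, ((Multiplicative.toAdd (expo k i ((IsFreeGroup.of j : S) : FreeGroup (Fin k))) : ℤ) :
      ZMod p) * v i
  have hRv : ∀ v j, Multiplicative.ofAdd (R v j) =
      FreeGroup.lift (fun i => Multiplicative.ofAdd (v i)) ((IsFreeGroup.of j : S) :
        FreeGroup (Fin k)) := by
    intro v j
    rw [lift_eq]
  have hsurj : Function.Surjective R := by
    intro c
    obtain ⟨χ', hχ'⟩ := extend S hS (IsFreeGroup.lift fun j => Multiplicative.ofAdd (c j))
    refine ⟨fun i => Multiplicative.toAdd (χ' (FreeGroup.of i)), ?_⟩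
    funext j
    have h1 := hRv (fun i => Multiplicative.toAdd (χ' (FreeGroup.of i))) j
    have h2 : FreeGroup.lift (fun i => Multiplicative.ofAdd
        (Multiplicative.toAdd (χ' (FreeGroup.of i)))) = χ' := by
      refine FreeGroup.ext_hom _ _ fun i => ?_
      simp
    rw [h2, hχ', IsFreeGroup.lift_of] at h1
    exact Multiplicative.ofAdd.injective h1
  have hinj0 : ∀ v, R v = 0 → v = 0 := by
    intro v hv
    have h1 : ((FreeGroup.lift (fun i => Multiplicative.ofAdd (v i))).comp S.subtype) =
        (1 : S →* Multiplicative (ZMod p)) := by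
      refine IsFreeGroup.ext_hom fun j => ?_
      have h2 := hRv v j
      rw [hv] at h2
      exact h2.symm
    funext i
    have h3 := extend_unique S hS (FreeGroup.lift (fun i => Multiplicative.ofAdd (v i)))
      (fun s => DFunLike.congr_fun h1 s) (FreeGroup.of i)
    rw [FreeGroup.lift_apply_of] at h3
    exact h3
  have hinj : Function.Injective R := by
    intro v v' h
    have h1 : R (v - v') = 0 := by
      funext j
      have h2 := congrFun h j
      simp only [R] at h2 ⊢
      simp only [Pi.sub_apply, mul_sub, Finset.sum_sub_distrib, h2, sub_self, Pi.zero_apply]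
    exact sub_eq_zero.1 (hinj0 _ h1)
  haveI : Finite (ι → ZMod p) := Finite.of_surjective R hsurj
  haveI : Finite ι := by
    refine Finite.of_injective (fun j : ι => (Pi.single j (1 : ZMod p) : ι → ZMod p)) ?_
    intro i j hij
    by_contra hne
    have h1 := congrFun hij i
    simp only [Pi.single_eq_same, Pi.single_eq_of_ne hne] at h1
    exact one_ne_zero h1
  have hcard : Nat.card ι = k := by
    have h1 := Nat.card_congr (Equiv.ofBijective R ⟨hinj, hsurj⟩)
    rw [Nat.card_fun, Nat.card_fun, Nat.card_zmod, Nat.card_fin] at h1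
    exact (Nat.pow_right_injective hp.two_le h1).symm
  let σ : ι ≃ Fin k := Finite.equivFinOfCardEq hcard
  refine ⟨fun j => IsFreeGroup.of (σ.symm j), ?_, ?_⟩
  · intro X _ f f' h
    refine IsFreeGroup.ext_hom fun j => ?_
    have h1 : f (IsFreeGroup.of (σ.symm (σ j))) = f' (IsFreeGroup.of (σ.symm (σ j))) := h (σ j)
    rw [σ.symm_apply_apply] at h1
    exact h1
  · set Mx : Matrix (Fin k) (Fin k) ℤ := Matrix.of fun i j : Fin k =>
      Multiplicative.toAdd (expo k i ((IsFreeGroup.of (σ.symm j) : S) : FreeGroup (Fin k))) with hMx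
    let Mp : Matrix (Fin k) (Fin k) (ZMod p) := ((Int.castRingHom (ZMod p)).mapMatrix Mx).transpose
    have hMp : Function.Injective Mp.mulVec := by
      intro v v' h
      apply hinj
      funext j
      have h1 := congrFun h (σ j)
      simp only [Matrix.mulVec, dotProduct, Mp, Matrix.transpose_apply, RingHom.mapMatrix_apply,
        Matrix.map_apply, hMx, Matrix.of_apply, σ.symm_apply_apply] at h1
      exact h1
    have hunit := (Matrix.isUnit_iff_isUnit_det Mp).1 (Matrix.mulVec_injective_iff_isUnit.1 hMp)
    have hdet : Mp.det = ((Mx.det : ℤ) : ZMod p) := by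
      show ((Int.castRingHom (ZMod p)).mapMatrix Mx).transpose.det = _
      rw [Matrix.det_transpose, ← RingHom.map_det]
      rfl
    have hnd : ¬ (p : ℤ) ∣ Mx.det := by
      intro hd
      rw [← ZMod.intCast_zmod_eq_zero_iff_dvd] at hd
      rw [hdet, hd] at hunit
      exact not_isUnit_zero hunit
    exact ((Nat.prime_iff_prime_int.1 hp).coprime_iff_not_dvd.2 hnd).symm

end Pool.Agent.TH63.KQ
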