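import Mathlib

/-!
# Systems of equations over a group, evaluated in finite `q`-groups

If the determinant of the exponent sums is prime to `q`, then the system has exactly one solution in
every finite `q`-group.
-/

set_option autoImplicit false

open Monoid
open scoped IsMulCommutative

namespace Pool.Agent.TH63.KQ

/-- the exponent sum of `t_i` -/
def eta (G : Type) [Group G] (n : ℕ) (i : Fin n) :
    Coprod G (FreeGroup (Fin n)) →* Multiplicative ℤ :=
  Coprod.lift (1 : G →* Multiplicative ℤ)
    (FreeGroup.lift fun k : Fin n => if k = i then Multiplicative.ofAdd (1 : ℤ) else 1)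

/-- the evaluation of words in `P` -/
def ev {G : Type} [Group G] {n : ℕ} {P : Type} [Group P] (φ : G →* P) (t : Fin n → P) :
    Coprod G (FreeGroup (Fin n)) →* P :=
  Coprod.lift φ (FreeGroup.lift t)

section abelian

variable {n : ℕ} {Z : Type} [CommGroup Z]

lemma prod_zpow_sum (z : Z) (s : Finset (Fin n)) (f : Fin n → ℤ) :
    ∏ i ∈ s, z ^ f i = z ^ ∑ i ∈ s, f i := by
  classical
  induction s using Finset.induction_on with
  | empty => simp
  | insert a s ha ih => rw [Finset.prod_insert ha, Finset.sum_insert ha, zpow_add, ih]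

/-- the action of integer matrices -/
def act (M : Matrix (Fin n) (Fin n) ℤ) (z : Fin n → Z) : Fin n → Z :=
  fun j => ∏ i, z i ^ M i j

lemma act_act (M N : Matrix (Fin n) (Fin n) ℤ) (z : Fin n → Z) :
    act N (act M z) = act (M * N) z := by
  funext j
  simp only [act, Matrix.mul_apply]
  calc ∏ i, (∏ k, z k ^ M k i) ^ N i j = ∏ i, ∏ k, z k ^ (M k i * N i j) := by
        refine Finset.prod_congr rfl fun i _ => ?_
        rw [← Finset.prod_zpow]
        refine Finset.prod_congr rfl fun k _ => ?_
        rw [zpow_mul]
    _ = ∏ k, ∏ i, z k ^ (M k i * N i j) := Finset.prod_comm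
    _ = ∏ k, z k ^ (∑ i, M k i * N i j) := by
        refine Finset.prod_congr rfl fun k _ => ?_
        rw [prod_zpow_sum]

lemma act_smul_one (m : ℤ) (z : Fin n → Z) :
    act (m • (1 : Matrix (Fin n) (Fin n) ℤ)) z = fun j => z j ^ m := by
  funext j
  simp only [act]
  rw [Finset.prod_eq_single j]
  · simp
  · intro i _ hi
    simp [Matrix.one_apply_ne hi]
  · simp

lemma act_unique (q : ℕ) [Fact q.Prime] [Finite Z] (hZ : IsPGroup q Z)
    (E : Matrix (Fin n) (Fin n) ℤ) (hE : IsCoprime E.det (q : ℤ)) (c : Fin n → Z) :
    ∃ z : Fin n → Z, act E z = c ∧ ∀ z', act E z' = c → z' = z := by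
  obtain ⟨k, hk⟩ := (IsPGroup.iff_card (p := q)).1 hZ
  obtain ⟨m, m', hm⟩ := (hE.pow_right : IsCoprime E.det ((q : ℤ) ^ k))
  have hpow : ∀ z : Fin n → Z, (fun j => z j ^ (m * E.det)) = z := by
    intro z
    funext j
    have h1 : m * E.det = 1 - m' * (q : ℤ) ^ k := by linarith
    have h2 : z j ^ ((q : ℤ) ^ k) = 1 := by
      have h3 : z j ^ (Nat.card Z) = 1 := pow_card_eq_one'
      rw [hk] at h3
      have h4 : ((q : ℤ) ^ k) = ((q ^ k : ℕ) : ℤ) := by push_cast; rfl
      rw [h4, zpow_natCast, h3]
    rw [h1, zpow_sub, zpow_one, mul_comm m', zpow_mul, h2, one_zpow, inv_one, mul_one]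
  refine ⟨act (m • E.adjugate) c, ?_, ?_⟩
  · rw [act_act, Matrix.smul_mul, Matrix.adjugate_mul, smul_smul, act_smul_one, hpow]
  · intro z' hz'
    rw [← hz', act_act, Matrix.mul_smul, Matrix.mul_adjugate, smul_smul, act_smul_one, hpow]

end abelian

section central

variable {G : Type} [Group G] {n : ℕ} {P : Type} [Group P]

lemma ev_central (φ : G →* P) (t : Fin n → P) (z : Fin n → Subgroup.center P)
    (w : Coprod G (FreeGroup (Fin n))) :
    ev φ (fun i => t i * (z i : P)) w =
      ev φ t w * ((∏ i, z i ^ (Multiplicative.toAdd (eta G n i w)) : Subgroup.center P) : P) := by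
  let ζ : Coprod G (FreeGroup (Fin n)) →* Subgroup.center P :=
    { toFun := fun γ => ∏ i, z i ^ (Multiplicative.toAdd (eta G n i γ))
      map_one' := by simp
      map_mul' := by
        intro a b
        rw [← Finset.prod_mul_distrib]
        refine Finset.prod_congr rfl fun i _ => ?_
        rw [map_mul, toAdd_mul, zpow_add] }
  let Ψ : Coprod G (FreeGroup (Fin n)) →* P :=
    { toFun := fun γ => ev φ t γ * (ζ γ : P)
      map_one' := by simp
      map_mul' := by
        intro a b
        have h := Subgroup.mem_center_iff.1 (ζ a).2 (ev φ t b)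
        rw [map_mul, map_mul, Subgroup.coe_mul]
        calc ev φ t a * ev φ t b * ((ζ a : P) * (ζ b : P))
            = ev φ t a * (ev φ t b * (ζ a : P)) * (ζ b : P) := by group
          _ = ev φ t a * ((ζ a : P) * ev φ t b) * (ζ b : P) := by rw [h]
          _ = _ := by group }
  have h : ev φ (fun i => t i * (z i : P)) = Ψ := by
    apply Coprod.hom_ext
    · refine MonoidHom.ext fun u => ?_
      show ev φ (fun i => t i * (z i : P)) (Coprod.inl u) =
        ev φ t (Coprod.inl u) * ((∏ i, z i ^ (Multiplicative.toAdd (eta G n i (Coprod.inl u))) :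
          Subgroup.center P) : P)
      simp [ev, eta]
    · refine FreeGroup.ext_hom _ _ fun k => ?_
      show ev φ (fun i => t i * (z i : P)) (Coprod.inr (FreeGroup.of k)) =
        ev φ t (Coprod.inr (FreeGroup.of k)) *
          ((∏ i, z i ^ (Multiplicative.toAdd (eta G n i (Coprod.inr (FreeGroup.of k)))) :
          Subgroup.center P) : P)
      have h1 : (∏ i, z i ^ (Multiplicative.toAdd (eta G n i (Coprod.inr (FreeGroup.of k)))) :
          Subgroup.center P) = z k := by
        rw [Finset.prod_eq_single k]
        · simp [eta]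
        · intro i _ hi
          simp [eta, hi.symm]
        · simp
      rw [h1]
      simp [ev]
  rw [h]
  rfl

lemma ev_comp {Q : Type} [Group Q] (ψ : P →* Q) (φ : G →* P) (t : Fin n → P)
    (w : Coprod G (FreeGroup (Fin n))) :
    ψ (ev φ t w) = ev (ψ.comp φ) (fun i => ψ (t i)) w := by
  have h : ψ.comp (ev φ t) = ev (ψ.comp φ) (fun i => ψ (t i)) := by
    apply Coprod.hom_ext
    · refine MonoidHom.ext fun u => ?_
      simp [ev]
    · refine FreeGroup.ext_hom _ _ fun k => ?_
      simp [ev]
  rw [← h]
  rfl

end central

theorem unique_solution {G : Type} [Group G] {n : ℕ} (q : ℕ) [Fact q.Prime]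
    (w : Fin n → Coprod G (FreeGroup (Fin n)))
    (hdet : IsCoprime (Matrix.of fun i j : Fin n => Multiplicative.toAdd (eta G n i (w j))).det
      (q : ℤ)) :
    ∀ (N : ℕ) (P : Type) [Group P] [Finite P], Nat.card P ≤ N → IsPGroup q P →
      ∀ (φ : G →* P) (c : Fin n → P),
        ∃ t : Fin n → P, (∀ j, ev φ t (w j) = c j) ∧
          ∀ t' : Fin n → P, (∀ j, ev φ t' (w j) = c j) → t' = t := by
  intro N
  induction N with
  | zero =>
    intro P _ _ hN
    exact absurd hN (by have := Nat.card_pos (α := P); omega)
  | succ N ih =>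
    intro P _ _ hN hP φ c
    rcases subsingleton_or_nontrivial P with hs | hs
    · exact ⟨fun _ => 1, fun j => Subsingleton.elim _ _, fun _ _ => Subsingleton.elim _ _⟩
    · haveI := IsPGroup.center_nontrivial hP
      have hcard : Nat.card (P ⧸ Subgroup.center P) ≤ N := by
        have h1 := Subgroup.card_eq_card_quotient_mul_card_subgroup (Subgroup.center P)
        have h2 : 1 < Nat.card (Subgroup.center P) := Finite.one_lt_card
        have h3 : 0 < Nat.card (P ⧸ Subgroup.center P) := Nat.card_pos
        nlinarith
      have hPQ : IsPGroup q (P ⧸ Subgroup.center P) := hP.to_quotient _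
      let mk := QuotientGroup.mk' (Subgroup.center P)
      obtain ⟨s, hs1, hs2⟩ := ih (P ⧸ Subgroup.center P) hcard hPQ (mk.comp φ) (fun j => mk (c j))
      have hlift : ∀ i, ∃ p : P, mk p = s i := fun i => QuotientGroup.mk'_surjective _ (s i)
      choose t ht using hlift
      have hd : ∀ j, (ev φ t (w j))⁻¹ * c j ∈ Subgroup.center P := by
        intro j
        rw [← QuotientGroup.eq]
        have h1 := ev_comp mk φ t (w j)
        rw [funext ht, hs1 j] at h1
        exact h1
      obtain ⟨z, hz1, hz2⟩ := act_unique (Z := Subgroup.center P) q (hP.to_subgroup _)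
        (Matrix.of fun i j : Fin n => Multiplicative.toAdd (eta G n i (w j))) hdet
        (fun j => ⟨_, hd j⟩)
      refine ⟨fun i => t i * (z i : P), ?_, ?_⟩
      · intro j
        rw [ev_central]
        have h1 := congrFun hz1 j
        simp only [act, Matrix.of_apply] at h1
        rw [h1]
        simp
      · intro t' ht'
        have h1 : (fun i => mk (t' i)) = s := by
          apply hs2
          intro j
          rw [← ev_comp, ht' j]
        have h2 : ∀ i, (t i)⁻¹ * t' i ∈ Subgroup.center P := by
          intro i
          rw [← QuotientGroup.eq]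
          exact (ht i).trans (congrFun h1 i).symm
        have h3 : t' = fun i => t i * ((⟨_, h2 i⟩ : Subgroup.center P) : P) := by
          funext i
          simp
        have h4 : (fun i => (⟨_, h2 i⟩ : Subgroup.center P)) = z := by
          apply hz2
          funext j
          have h5 := ht' j
          rw [h3, ev_central] at h5
          apply Subtype.ext
          simp only [act, Matrix.of_apply]
          rw [← h5]
          simp
        rw [h3]
        funext i
        rw [← h4]

end Pool.Agent.TH63.KQ
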