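import Pool.Agent.TH63.KQ.Unique

/-!
# The coefficients of a product of conjugates of the words vanish
-/

set_option autoImplicit false

open Monoid

namespace Pool.Agent.TH63.KQ

lemma int_zero (q : ℕ) (hq : 1 < q) (a : ℤ) (h : ∀ s : ℕ, ((q ^ s : ℕ) : ℤ) ∣ a) : a = 0 := by
  refine Int.eq_zero_of_abs_lt_dvd (h a.natAbs) ?_
  rw [Int.abs_eq_natAbs]
  exact_mod_cast Nat.lt_pow_self hq

theorem exists_coeff {Γ : Type} [Group Γ] {ι : Type} [Fintype ι] [DecidableEq ι]
    (S M : Subgroup Γ) [S.Normal] [Fintype (Γ ⧸ M)] [DecidableEq (Γ ⧸ M)]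
    (w : ι → Γ) (hw : ∀ j, w j ∈ S) (u : Γ) (hu : u ∈ Subgroup.normalClosure (Set.range w)) :
    u ∈ S ∧ ∃ ξ : ι × (Γ ⧸ M) → ℤ, ∀ (B : Type) [CommGroup B] (f : Γ → B),
      (∀ s ∈ S, ∀ s' ∈ S, f (s * s') = f s * f s') →
      (∀ m ∈ M, ∀ s ∈ S, f (m * s * m⁻¹) = f s) →
      f u = ∏ p : ι × (Γ ⧸ M), f (p.2.out⁻¹ * w p.1 * p.2.out) ^ ξ p := by
  have hone : ∀ (B : Type) [CommGroup B] (f : Γ → B),
      (∀ s ∈ S, ∀ s' ∈ S, f (s * s') = f s * f s') → f 1 = 1 := by
    intro B _ f hf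
    have h := hf 1 S.one_mem 1 S.one_mem
    rw [mul_one] at h
    exact (mul_eq_left.1 h.symm)
  unfold Subgroup.normalClosure at hu
  induction hu using Subgroup.closure_induction with
  | mem x hx =>
    obtain ⟨a, ⟨j, rfl⟩, hconj⟩ := Group.mem_conjugatesOfSet_iff.1 hx
    obtain ⟨c, hc⟩ := isConj_iff.1 hconj
    have hxS : x ∈ S := by
      rw [← hc]
      exact (inferInstance : S.Normal).conj_mem _ (hw j) c
    refine ⟨hxS, Pi.single (j, (QuotientGroup.mk c⁻¹ : Γ ⧸ M)) 1, ?_⟩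
    intro B _ f hf1 hf2
    rw [Finset.prod_eq_single (j, (QuotientGroup.mk c⁻¹ : Γ ⧸ M))]
    · obtain ⟨m, hm⟩ := QuotientGroup.mk_out_eq_mul M c⁻¹
      rw [Pi.single_eq_same, zpow_one, hm]
      have h1 : (c⁻¹ * (m : Γ))⁻¹ * w j * (c⁻¹ * (m : Γ)) =
          ((m : Γ)⁻¹) * x * ((m : Γ)⁻¹)⁻¹ := by
        rw [← hc]
        group
      rw [h1, hf2 _ (M.inv_mem m.2) x hxS]
    · intro p _ hp
      rw [Pi.single_eq_of_ne hp, zpow_zero]
    · intro h
      exact absurd (Finset.mem_univ _) h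
  | one =>
    refine ⟨S.one_mem, 0, ?_⟩
    intro B _ f hf1 hf2
    rw [hone B f hf1]
    simp
  | mul x y hx hy ihx ihy =>
    obtain ⟨hxS, ξ, hξ⟩ := ihx
    obtain ⟨hyS, η, hη⟩ := ihy
    refine ⟨S.mul_mem hxS hyS, ξ + η, ?_⟩
    intro B _ f hf1 hf2
    rw [hf1 x hxS y hyS, hξ B f hf1 hf2, hη B f hf1 hf2, ← Finset.prod_mul_distrib]
    refine Finset.prod_congr rfl fun p _ => ?_
    rw [Pi.add_apply, zpow_add]
  | inv x hx ihx =>
    obtain ⟨hxS, ξ, hξ⟩ := ihx
    refine ⟨S.inv_mem hxS, -ξ, ?_⟩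
    intro B _ f hf1 hf2
    have h1 : f x⁻¹ = (f x)⁻¹ := by
      have h := hf1 x⁻¹ (S.inv_mem hxS) x hxS
      rw [inv_mul_cancel, hone B f hf1] at h
      exact eq_inv_of_mul_eq_one_left h.symm
    rw [h1, hξ B f hf1 hf2, ← Finset.prod_inv_distrib]
    refine Finset.prod_congr rfl fun p _ => ?_
    rw [Pi.neg_apply, zpow_neg]

open RegularWreathProduct in
theorem vanish {G : Type} [Group G] {n : ℕ} (q : ℕ) [Fact q.Prime]
    (w : Fin n → Coprod G (FreeGroup (Fin n)))
    (hdet : IsCoprime (Matrix.of fun i j : Fin n => Multiplicative.toAdd (eta G n i (w j))).det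
      (q : ℤ))
    (K : Type) [Group K] [Finite K] (hK : IsPGroup q K) (φ : G →* K) (b : Fin n → K)
    (S : Subgroup (Coprod G (FreeGroup (Fin n)))) [S.Normal] (hSK : S ≤ (ev φ b).ker)
    (hwS : ∀ j, w j ∈ S) (M : Subgroup K) (r : ℕ) (g : Fin r → G)
    (h : Fin r → Coprod G (FreeGroup (Fin n)))
    (hM : ∀ l, ev φ b (h l * Coprod.inl (g l) * (h l)⁻¹) ∈ M)
    (hu : (List.ofFn fun l => h l * Coprod.inl (g l) * (h l)⁻¹).prod ∈
      Subgroup.normalClosure (Set.range w))
    (B : Type) [CommGroup B] (f : Coprod G (FreeGroup (Fin n)) → B)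
    (hf1 : ∀ s ∈ S, ∀ s' ∈ S, f (s * s') = f s * f s')
    (hf2 : ∀ m ∈ M.comap (ev φ b), ∀ s ∈ S, f (m * s * m⁻¹) = f s) :
    f (List.ofFn fun l => h l * Coprod.inl (g l) * (h l)⁻¹).prod = 1 := by
  classical
  set π := ev φ b with hπ
  have hb : ∀ j, ev φ b (w j) = 1 := fun j => MonoidHom.mem_ker.1 (hSK (hwS j))
  have hSM : S ≤ M.comap π := by
    intro x hx
    rw [Subgroup.mem_comap, MonoidHom.mem_ker.1 (hSK hx)]
    exact M.one_mem
  haveI : Finite (Coprod G (FreeGroup (Fin n)) ⧸ M.comap π) := by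
    have hinj : Function.Injective
        (fun x : Coprod G (FreeGroup (Fin n)) ⧸ M.comap π => (π x.out : K ⧸ M)) := by
      intro x y hxy
      have h1 : (π x.out)⁻¹ * π y.out ∈ M := QuotientGroup.eq.1 hxy
      rw [← map_inv, ← map_mul] at h1
      rw [← QuotientGroup.out_eq' x, ← QuotientGroup.out_eq' y]
      exact QuotientGroup.eq.2 h1
    exact Finite.of_injective _ hinj
  haveI : Fintype (Coprod G (FreeGroup (Fin n)) ⧸ M.comap π) := Fintype.ofFinite _
  haveI : Fintype K := Fintype.ofFinite K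
  obtain ⟨-, ξ, hξ⟩ := exists_coeff S (M.comap π) w hwS _ hu
  have hξ0 : ∀ p, ξ p = 0 := by
    rintro ⟨j0, ω0⟩
    refine int_zero q (Fact.out (p := q.Prime)).one_lt _ fun s => ?_
    haveI : NeZero (q ^ s) := ⟨pow_ne_zero _ (Fact.out (p := q.Prime)).ne_zero⟩
    let D := Multiplicative (ZMod (q ^ s))
    have hcardD : Nat.card D = q ^ s := by
      show Nat.card (ZMod (q ^ s)) = q ^ s
      rw [Nat.card_eq_fintype_card, ZMod.card]
    have hPG : IsPGroup q (D ≀ᵣ K) := by
      obtain ⟨k, hk⟩ := (IsPGroup.iff_card (p := q)).1 hK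
      refine IsPGroup.of_card (n := s * q ^ k + k) ?_
      rw [RegularWreathProduct.card, hcardD, hk, ← pow_mul, ← pow_add]
    let δ : Fin n → K → D := fun j x =>
      if j = j0 ∧ x = π ω0.out then Multiplicative.ofAdd (1 : ZMod (q ^ s)) else 1
    obtain ⟨t, ht, -⟩ := unique_solution q w hdet _ (D ≀ᵣ K) le_rfl hPG
      ((RegularWreathProduct.inl : K →* D ≀ᵣ K).comp φ) (fun j => ⟨δ j, 1⟩)
    obtain ⟨b', -, hb'⟩ := unique_solution q w hdet _ K le_rfl hK φ (fun _ => 1)
    let Φ := ev ((RegularWreathProduct.inl : K →* D ≀ᵣ K).comp φ) t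
    have hright : ∀ γ, (Φ γ).right = π γ := by
      have h1 : ∀ γ, (RegularWreathProduct.rightHom : D ≀ᵣ K →* K) (Φ γ) =
          ev φ (fun i => (RegularWreathProduct.rightHom : D ≀ᵣ K →* K) (t i)) γ := by
        intro γ
        exact ev_comp _ _ _ γ
      have h2 : (fun i => (RegularWreathProduct.rightHom : D ≀ᵣ K →* K) (t i)) = b := by
        rw [hb' b hb]
        apply hb'
        intro j
        rw [← h1]
        show (RegularWreathProduct.rightHom : D ≀ᵣ K →* K) (ev _ t (w j)) = 1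
        rw [ht j]
        rfl
      intro γ
      have h3 := h1 γ
      rw [h2] at h3
      exact h3
    let Λ : Coprod G (FreeGroup (Fin n)) → D := fun γ => ∏ x : M, (Φ γ).left x
    have hΛmul : ∀ m, π m ∈ M → ∀ γ, Λ (m * γ) = Λ m * Λ γ := by
      intro m hm γ
      show ∏ x : M, (Φ (m * γ)).left x = (∏ x : M, (Φ m).left x) * ∏ x : M, (Φ γ).left x
      rw [map_mul, RegularWreathProduct.mul_left]
      simp only [Pi.mul_apply]
      rw [Finset.prod_mul_distrib]
      congr 1
      rw [hright m]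
      exact Equiv.prod_comp (Equiv.mulLeft ((⟨π m, hm⟩ : M)⁻¹)) (fun x : M => (Φ γ).left x)
    have hΛ1 : ∀ s ∈ S, ∀ s' ∈ S, Λ (s * s') = Λ s * Λ s' := by
      intro s hs s' _
      exact hΛmul s (hSM hs) s'
    have hΛone : Λ 1 = 1 := by
      have h1 := hΛmul 1 (by rw [map_one]; exact M.one_mem) 1
      rw [mul_one] at h1
      exact (mul_eq_left.1 h1.symm)
    have hΛ2 : ∀ m ∈ M.comap π, ∀ s ∈ S, Λ (m * s * m⁻¹) = Λ s := by
      intro m hm s hs
      have h1 : π (m * s) ∈ M := by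
        rw [map_mul]
        exact M.mul_mem hm (hSM hs)
      have h2 : Λ m * Λ m⁻¹ = 1 := by
        rw [← hΛmul m hm, mul_inv_cancel, hΛone]
      rw [hΛmul _ h1, hΛmul _ hm, mul_right_comm, h2, one_mul]
    have hΛconj : ∀ l, Λ (h l * Coprod.inl (g l) * (h l)⁻¹) = 1 := by
      intro l
      have h1 := hM l
      show ∏ x : M, (Φ (h l * Coprod.inl (g l) * (h l)⁻¹)).left x = 1
      have h2 : Φ (Coprod.inl (g l)) = RegularWreathProduct.inl (φ (g l)) := by
        simp [Φ, ev]
      have h3 : ∀ x : K, (Φ (h l * Coprod.inl (g l) * (h l)⁻¹)).left x =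
          (Φ (h l)).left x *
            ((Φ (h l)).left ((π (h l * Coprod.inl (g l) * (h l)⁻¹))⁻¹ * x))⁻¹ := by
        intro x
        rw [← hright, map_mul, map_mul, map_inv, h2]
        simp [mul_assoc]
      simp only [h3]
      rw [Finset.prod_mul_distrib, Finset.prod_inv_distrib]
      have h4 := Equiv.prod_comp (Equiv.mulLeft ((⟨_, h1⟩ : M)⁻¹)) (fun x : M => (Φ (h l)).left x)
      simp only [Equiv.coe_mulLeft, Subgroup.coe_mul, Subgroup.coe_inv] at h4
      rw [h4, mul_inv_cancel]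
    have hΛu : ∀ (r : ℕ) (v : Fin r → Coprod G (FreeGroup (Fin n))), (∀ l, π (v l) ∈ M) →
        (∀ l, Λ (v l) = 1) → Λ (List.ofFn v).prod = 1 := by
      intro r
      induction r with
      | zero =>
        intro v _ _
        simpa using hΛone
      | succ r ih =>
        intro v hv1 hv2
        rw [List.ofFn_succ, List.prod_cons, hΛmul _ (hv1 0), hv2 0,
          ih _ (fun l => hv1 _) (fun l => hv2 _), mul_one]
    have h5 := hΛu r _ hM hΛconj
    rw [hξ D Λ hΛ1 hΛ2] at h5
    have h6 : ∀ p : Fin n × (Coprod G (FreeGroup (Fin n)) ⧸ M.comap π),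
        Λ (p.2.out⁻¹ * w p.1 * p.2.out) = if p = (j0, ω0) then
          Multiplicative.ofAdd (1 : ZMod (q ^ s)) else 1 := by
      rintro ⟨j, ω⟩
      show ∏ x : M, (Φ (ω.out⁻¹ * w j * ω.out)).left x = _
      have h7 : ∀ x : K, (Φ (ω.out⁻¹ * w j * ω.out)).left x = δ j (π ω.out * x) := by
        intro x
        have h8 : Φ (w j) = ⟨δ j, 1⟩ := ht j
        rw [map_mul, map_mul, map_inv, h8]
        simp [hright]
      simp only [h7]
      by_cases hj : j = j0
      · subst hj
        by_cases hω : ω = ω0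
        · subst hω
          rw [if_pos rfl, Finset.prod_eq_single (1 : M)]
          · simp [δ]
          · intro x _ hx
            have : ¬ (π ω.out * (x : K) = π ω.out) := by
              intro h9
              apply hx
              apply Subtype.ext
              simpa using h9
            simp [δ, this]
          · intro h9
            exact absurd (Finset.mem_univ _) h9
        · rw [if_neg (by simpa using hω)]
          refine Finset.prod_eq_one fun x _ => ?_
          have : ¬ (π ω.out * (x : K) = π ω0.out) := by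
            intro h9
            apply hω
            rw [← QuotientGroup.out_eq' ω, ← QuotientGroup.out_eq' ω0]
            refine QuotientGroup.eq.2 ?_
            rw [Subgroup.mem_comap, map_mul, map_inv, ← h9, inv_mul_cancel_left]
            exact x.2
          simp [δ, this]
      · rw [if_neg (by simp [hj])]
        refine Finset.prod_eq_one fun x _ => ?_
        simp [δ, hj]
    simp only [h6] at h5
    rw [Finset.prod_eq_single (j0, ω0)] at h5
    · rw [if_pos rfl, ← ofAdd_zsmul] at h5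
      have h9 : ((ξ (j0, ω0)) • (1 : ZMod (q ^ s))) = 0 := h5
      rw [zsmul_one] at h9
      exact (ZMod.intCast_zmod_eq_zero_iff_dvd _ _).1 h9
    · intro p _ hp
      rw [if_neg hp, one_zpow]
    · intro h9
      exact absurd (Finset.mem_univ _) h9
  rw [hξ B f hf1 hf2]
  simp [hξ0]

end Pool.Agent.TH63.KQ
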